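import Pool.Agent.H22.McC

set_option autoImplicit false

namespace Pool.Agent.Results.MP_4d240a_al.RightMcCoy

open Polynomial

/-- A right McCoy ring with identity that is not right Dischinger. -/
theorem result : ∃ (S : Type) (_ : Ring S),
    (∀ f g : S[X], f ≠ 0 → g ≠ 0 → f * g = 0 → ∃ s : S, s ≠ 0 ∧ f * C s = 0) ∧
    ∃ a y : S, a = a ^ 2 * y ∧ ∀ z : S, a ≠ z * a ^ 2 := by
  refine ⟨H22.McC.S, inferInstance,
    fun f g _ hg h => ⟨H22.McC.s0, H22.McC.s0_ne, H22.McC.mccoy f g hg h⟩,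
    MonoidAlgebra.of ℚ _ H22.McC.a0, MonoidAlgebra.of ℚ _ H22.McC.y0, ?_, H22.McC.notD⟩
  rw [← map_pow, ← map_mul, ← H22.McC.ay]

end Pool.Agent.Results.MP_4d240a_al.RightMcCoy
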